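import Pool.Agent.P.MP_de432b_gt.Contr

namespace Pool.Agent.P.MP_de432b_gt.Old.BoxContractible

open Pool.Agent.P.MP_de432b_gt

/-- The punctured space of mm-spaces is contractible in the box topology. -/
theorem result :
    @ContractibleSpace {x : MM // x ≠ cls pt} (@instTopologicalSpaceSubtype _ _ (topOf box)) :=
  good_box.contractible

end Pool.Agent.P.MP_de432b_gt.Old.BoxContractible
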